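import Pool.Agent.helper11.Disk.Final

/-!
# Dissections of the disk whose point group is a `p`-group

Definitions: `CongruentDissection`, `RectifiableBoundary` in `Pool/Agent/helper15/Hexagon/Defs.lean`.

The proof.  Let `P i = g i '' P i₀` and let `Γ` be a countable group of isometries which contains
the `g i`.  The jump of the indicator function of `P i₀` across the unit circles with centres
`γ⁻¹ 0` (the boundary has finite length, so almost every direction is good) gives a finitely
supported function `j : Γ → ℤ` with `∑ i, j (g i⁻¹ γ) = 1` if `γ 0 = 0` and `= 0` otherwise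
(`Disk/Jump.lean`).  If the linear parts generate a finite `p`-group `G` then this equation in the
group ring is studied with characters of order `p` of the module of the translation parts
(`Disk/Rigid.lean`, `Disk/Cyc.lean`).
-/

set_option autoImplicit false

namespace Pool.Agent.Results.MP_8eede0_co.PrimePowerPointGroup

open Pool.Agent.helper15.Hexagon Pool.Agent.helper11.Disk

/-- The point group: the group generated by the linear parts of the isometries `g i`. -/
noncomputable def pointGroup {n : ℕ} (g : Fin n → (ℂ ≃ᵃⁱ[ℝ] ℂ)) : Subgroup (ℂ ≃ₗᵢ[ℝ] ℂ) :=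
  Subgroup.closure (Set.range fun i => (g i).linearIsometryEquiv)

theorem mem_pointGroup {n : ℕ} (g : Fin n → (ℂ ≃ᵃⁱ[ℝ] ℂ)) (i : Fin n) : lin (g i) ∈ pointGroup g :=
  Subgroup.subset_closure ⟨i, rfl⟩

theorem rotations_of_closure {n : ℕ} {g : Fin n → (ℂ ≃ᵃⁱ[ℝ] ℂ)}
    (h : ∀ i, ∃ a : Circle, (g i).linearIsometryEquiv = rotation a) :
    ∀ A ∈ pointGroup g, ∃ a : Circle, A = rotation a := by
  have h1 : pointGroup g ≤ (rotation : Circle →* (ℂ ≃ₗᵢ[ℝ] ℂ)).range := by
    unfold pointGroup
    rw [Subgroup.closure_le]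
    rintro _ ⟨i, rfl⟩
    obtain ⟨a, ha⟩ := h i
    exact ⟨a, ha.symm⟩
  intro A hA
  obtain ⟨a, ha⟩ := h1 hA
  exact ⟨a, ha.symm⟩

theorem rotations_of_odd {p : ℕ} (hp : p.Prime) (h2 : p ≠ 2) (G : Subgroup (ℂ ≃ₗᵢ[ℝ] ℂ)) (hG : IsPGroup p G) :
    ∀ A ∈ G, ∃ a : Circle, A = rotation a := by
  intro A hA
  obtain ⟨a, ha | ha⟩ := linear_isometry_complex A
  · exact ⟨a, ha⟩
  exfalso
  have hodd : Odd p := hp.odd_of_ne_two h2
  have hA2 : A * A = 1 := by
    ext x
    show A (A x) = x
    rw [ha]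
    show (a : ℂ) * (starRingEnd ℂ) ((a : ℂ) * (starRingEnd ℂ) x) = x
    rw [map_mul, Complex.conj_conj, ← mul_assoc, Complex.mul_conj, Complex.normSq_eq_norm_sq, Circle.norm_coe]
    simp
  obtain ⟨k, hk⟩ := hG ⟨A, hA⟩
  have hk' : A ^ (p ^ k) = 1 := congrArg Subtype.val hk
  obtain ⟨m, hm⟩ := hodd.pow (n := k)
  have hA1 : A = 1 := by
    rw [hm, pow_succ, pow_mul, pow_two, hA2, one_pow, one_mul] at hk'
    exact hk'
  have e1 : A 1 = 1 := by rw [hA1]; rfl
  have e2 : A Complex.I = Complex.I := by rw [hA1]; rfl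
  rw [ha] at e1 e2
  have e1' : (a : ℂ) * (starRingEnd ℂ) 1 = 1 := e1
  have e2' : (a : ℂ) * (starRingEnd ℂ) Complex.I = Complex.I := e2
  rw [map_one, mul_one] at e1'
  rw [e1', one_mul, Complex.conj_I] at e2'
  exact Complex.I_ne_zero (self_eq_neg.mp e2'.symm)

/-- **Congruent dissections of the disk with a `p`-group as point group.** Let `P 0, …, P (n-1)` be
a congruent dissection of the closed unit disk and let `g i` be isometries with `P i = g i (P i₀)`.
Suppose that the linear parts of the `g i` generate a finite `p`-group `G`, `p` prime; if `p = 2`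
suppose in addition that the `g i` preserve the orientation, or that the order of `G` divides `8`,
or that it is `n`.  Then all `g i` fix the centre `0`, and the centre is on the boundary of every
piece. -/
theorem result {n : ℕ} {P : Fin n → Set ℂ} (hP : CongruentDissection (Metric.closedBall 0 1) n P)
    (i₀ : Fin n) (g : Fin n → (ℂ ≃ᵃⁱ[ℝ] ℂ)) (hg : ∀ i, g i '' P i₀ = P i)
    (p : ℕ) (hp : p.Prime) (hfin : Finite (pointGroup g)) (hG : IsPGroup p (pointGroup g))
    (h2 : p = 2 → (∀ i, ∃ a : Circle, (g i).linearIsometryEquiv = rotation a) ∨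
      Nat.card (pointGroup g) ∣ 8 ∨ Nat.card (pointGroup g) = n) :
    (∀ i, g i 0 = 0) ∧ ∀ i, (0 : ℂ) ∈ frontier (P i) := by
  have := Fact.mk hp
  obtain ⟨k, hk⟩ := IsPGroup.iff_card.mp hG
  have hadm : Adm n (pointGroup g) := by
    by_cases hp2 : p = 2
    · rcases h2 hp2 with h | h | h
      · exact Or.inr (Or.inr ⟨⟨p, k, hp, hk⟩, rotations_of_closure h⟩)
      · exact Or.inl h
      · exact Or.inr (Or.inl ⟨p, k, hp, by rw [← h, hk], by rw [hk]⟩)
    · exact Or.inr (Or.inr ⟨⟨p, k, hp, hk⟩, rotations_of_odd hp hp2 _ hG⟩)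
  have h0 : ∀ i, g i 0 = 0 := core3 hP i₀ g hg (pointGroup g) (mem_pointGroup g) hadm
  exact ⟨h0, frontier_of_fix hP i₀ g hg h0⟩

end Pool.Agent.Results.MP_8eede0_co.PrimePowerPointGroup
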