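import Pool.Agent.helper56.Dod.Main

/-!
# A regular dodecagon has a congruent dissection with its centre inside a piece

The definitions (`regularPolygon`, `RectifiableBoundary`, `CongruentDissection`) are in
`Pool/Agent/helper15/Hexagon/Defs.lean`.

The dodecagon of side `4` is cut into 48 copies of a nonconvex equilateral pentagon of side
`2`, the union of a rhombus with angle `30` degrees and an equilateral triangle. The 48
isometries and the finite verifications are in `Pool/Agent/helper56/Dod/Data.lean`, the
topology of the pieces is in `Tile.lean`.
-/

set_option autoImplicit false

namespace Pool.Agent.Results.MP_8eede0_co.RegularDodecagonCentre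

open Pool.Agent.helper15.Hexagon

/-- **Q2 for `n = 12`.** Every regular dodecagon, with centre `c` and a vertex `c + v`, has a
congruent dissection into 48 pieces such that the centre `c` is in the interior of a piece.
Moreover every piece is star-shaped with respect to one of its interior points. -/
theorem result (c v : ℂ) (hv : v ≠ 0) :
    ∃ P : Fin 48 → Set ℂ, CongruentDissection (regularPolygon 12 c v) 48 P ∧
      c ∈ interior (P 0) ∧ ∀ i, ∃ z ∈ interior (P i), StarConvex ℝ z (P i) :=
  Pool.Agent.helper56.Dod.main c v hv

end Pool.Agent.Results.MP_8eede0_co.RegularDodecagonCentre
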