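import Pool.Agent.helper15.Hexagon.Main

/-!
# A regular hexagon has a congruent dissection with its centre inside a piece

The definitions (`regularPolygon`, `RectifiableBoundary`, `CongruentDissection`) are in
`Pool/Agent/helper15/Hexagon/Defs.lean`.

The hexagon of side `8` in the triangular lattice is cut into 24 copies of a polygon with
`16` unit triangles, which has the vertices `(-4,1), (2,1), (2,-1), (0,-1), (-1,0), (-3,0)` in
lattice coordinates.  The 24 isometries are listed in `Pieces.lean`, where the finite
verification on the 384 unit triangles is done.  The topology of the pieces is in `Tile.lean`.
-/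

set_option autoImplicit false

namespace Pool.Agent.Results.MP_8eede0_co.RegularHexagonCentre

open Pool.Agent.helper15.Hexagon

/-- **Q2 for `n = 6`.** Every regular hexagon, with centre `c` and a vertex `c + v`, has a
congruent dissection into 24 pieces such that the centre `c` is in the interior of a piece.
Moreover every piece is star-shaped with respect to one of its interior points. -/
theorem result (c v : ℂ) (hv : v ≠ 0) :
    ∃ P : Fin 24 → Set ℂ, CongruentDissection (regularPolygon 6 c v) 24 P ∧
      c ∈ interior (P 0) ∧ ∀ i, ∃ z ∈ interior (P i), StarConvex ℝ z (P i) :=
  main c v hv

end Pool.Agent.Results.MP_8eede0_co.RegularHexagonCentre
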