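import Pool.Agent.helper56.Oct.Main

/-!
# A regular octagon has a congruent dissection with its centre inside a piece

The definitions (`regularPolygon`, `RectifiableBoundary`, `CongruentDissection`) are in
`Pool/Agent/helper15/Hexagon/Defs.lean`.

The octagon of side `4` is cut into 8 copies of a nonconvex hexagon, the union of a
parallelogram with sides `4` and `2` and angle `45` degrees and a square of side `2`.
The isometries are listed in `Pool/Agent/helper56/Oct/Pieces.lean`, where the octagon is
shown to be covered; the topology of the pieces is in `Tile.lean`.
-/

set_option autoImplicit false

namespace Pool.Agent.Results.MP_8eede0_co.RegularOctagonCentre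

open Pool.Agent.helper15.Hexagon

/-- **Q2 for `n = 8`.** Every regular octagon, with centre `c` and a vertex `c + v`, has a
congruent dissection into 8 pieces such that the centre `c` is in the interior of a piece.
Moreover every piece is star-shaped with respect to one of its interior points. -/
theorem result (c v : ℂ) (hv : v ≠ 0) :
    ∃ P : Fin 8 → Set ℂ, CongruentDissection (regularPolygon 8 c v) 8 P ∧
      c ∈ interior (P 0) ∧ ∀ i, ∃ z ∈ interior (P i), StarConvex ℝ z (P i) :=
  Pool.Agent.helper56.Oct.main c v hv

end Pool.Agent.Results.MP_8eede0_co.RegularOctagonCentre
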